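import Mathlib
import Pool.Agent.H14.LeavB

set_option autoImplicit false

namespace Pool.Agent.Results.MP_40e4cd_al.Counter

open Pool.Agent.H14.Leav in
theorem result : ∃ (K : Type) (_ : Field K) (Q : Quiv (Fin 3) (Fin 7)) (Q' : Quiv (Fin 3) (Fin 8)),
    Nonempty (L K Q.sq ≃ₐ[K] L K Q'.sq) ∧ IsEmpty (L K Q ≃ₐ[K] L K Q') :=
  ⟨ZMod 3, inferInstance, Q1, Q2, iso _, not_iso⟩

end Pool.Agent.Results.MP_40e4cd_al.Counter
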